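import Pool.Agent.Helper66_D2.Tool
import Pool.Agent.Helper6_D1.Ebd

/-!
# Squad PP, part D2, module EBD: class functions act on `fix / nrm` through the Brauer map
-/

open scoped BigOperators

noncomputable section

namespace Pool.Agent.PP.CD2.H6

open Pool.Agent.PP Pool.Agent.Helper51_AWC Pool.Agent.Helper79_WRA Pool.Agent.PP.CD2.H66

/-- EBD -/
theorem ebd (hebq : EbqStmt) (hprt : PrtStmt) (hstw : StwStmt) : EbdStmt := by
  intro ℓ hℓ F _ hF G _ _ n N P y₁ b w hD A _ _ j hj hr k σ m κ π hκ hV a c ha hac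
  have := Fintype.ofFinite G
  have := Fintype.ofFinite A
  obtain ⟨ψ, hψ⟩ := hebq ℓ F G n P y₁ hD.cyc hD.card hD.mem hD.ord (Fin k → F) (mrep σ) a
    (fun p _ x => ha x p)
  have hcm' : CmF (NY y₁) (bY y₁ a) := by
    have := bY_cm (y := y₁) (cmF_of_cl ha (⊤ : Subgroup G))
    rwa [top_inf_eq] at this
  have hH : HomOn (N ⊓ NY y₁) (mrep σ) (mrep σ)
      (evV (mrep σ) a - evV (mrep σ) (bY y₁ a)) := by
    intro x hx v
    rw [LinearMap.sub_apply, LinearMap.sub_apply, map_sub,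
      evV_cm (mrep σ) (cmF_of_cl ha (NY y₁)) hx.2 v, evV_cm (mrep σ) hcm' hx.2 v]
  obtain ⟨-, -, -, -, -, -, -, hnf, -, -, -⟩ := hstw ℓ F hF G n N P y₁ b w hD (Fin k → F) (mrep σ)
  have key : ∀ w' : Fin m → F, (ev κ (fun t : A => bY y₁ a (j t))).mulVec w' = c • w' := by
    intro w'
    obtain ⟨v, hv, rfl⟩ := hV.sur w'
    have h1 := hprt ℓ F hF G n N P y₁ b w hD _ _ (mrep σ) (mrep σ) _ hH ⟨ψ, hψ⟩ 1
      (Nat.one_le_pow _ _ hℓ.out.pos) v hv.1 (by rw [pow_one]; exact hv.2)
    rw [LinearMap.sub_apply, D1H6.evV_mrep σ a v, hac, D1H6.scalar_mulVec] at h1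
    -- the image of the Brauer part
    have h2 : π (evV (mrep σ) (bY y₁ a) v) =
        (ev κ (fun t : A => bY y₁ a (j t))).mulVec (π v) := by
      rw [evV, ev, finsum_eq_sum_of_fintype, finsum_eq_sum_of_fintype, LinearMap.sum_apply,
        Matrix.sum_mulVec, map_sum]
      have h3 : ∀ t : A, (bY y₁ a (j t) • κ t).mulVec (π v) =
          π ((bY y₁ a (j t) • mrep σ (j t)) v) := by
        intro t
        rw [Matrix.smul_mulVec, ← hV.int t v hv, LinearMap.smul_apply, map_smul]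
      rw [Finset.sum_congr rfl fun t _ => h3 t]
      symm
      refine Finset.sum_of_injOn j (fun x _ y _ h => hj h) (fun _ _ => Finset.mem_coe.2
        (Finset.mem_univ _)) (fun g _ hg => ?_) (fun _ _ => rfl)
      have h4 : bY y₁ a g = 0 := by
        unfold bY br
        rw [if_neg]
        intro hc
        have h5 : g ∈ j.range := by
          rw [hr]
          exact CY_le_NY y₁ hc
        obtain ⟨t, rfl⟩ := h5
        exact hg ⟨t, Finset.mem_coe.2 (Finset.mem_univ _), rfl⟩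
      rw [h4, zero_smul, LinearMap.zero_apply, map_zero]
    have h6 : c • v - evV (mrep σ) (bY y₁ a) v ∈ fixW (mrep σ) (bY y₁ b) w := hnf h1
    have h7 := (hV.ker _ h6).2 h1
    rw [map_sub, map_smul, h2, sub_eq_zero] at h7
    exact h7.symm
  apply Matrix.mulVec_injective
  funext w'
  rw [key, D1H6.scalar_mulVec]

end Pool.Agent.PP.CD2.H6
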