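import Pool.Agent.Helper66_D2.Tool
import Pool.Agent.Helper56_D2.Umx
import Pool.Agent.Helper50_PP.Bid

/-!
# Squad PP, part D2, module LOC: `b₁` is a block of the centraliser
-/

open scoped BigOperators

noncomputable section

namespace Pool.Agent.PP.CD2.H6

open Pool.Agent.PP Pool.Agent.Helper51_AWC Pool.Agent.Helper79_WRA Pool.Agent.PP.CD2.H66
  Pool.Agent.PP.H20

/-- a central element is a scalar plus a nilpotent element under a block -/
theorem dec {F H : Type} [Field F] [IsAlgClosed F] [Group H] [Finite H] {f z : H → F}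
    (hf : IsBlk f) (hz : IsCl z) : ∃ (c : F) (n : ℕ), (mulF (z - c • f))^[n] f = 0 := by
  classical
  have := Fintype.ofFinite H
  have hff : mulF f f = f := hf.1.2
  -- the left ideal generated by `f`
  let V : Submodule F (H → F) :=
    { carrier := {a | mulF f a = a}
      add_mem' := by
        intro a c ha hc
        change mulF f (a + c) = a + c
        rw [mulF_add, ha, hc]
      zero_mem' := mulF_zero f
      smul_mem' := by
        intro c a ha
        change mulF f (c • a) = c • a
        rw [mulF_smul, ha] }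
  let T : V →ₗ[F] V :=
    { toFun := fun a => ⟨mulF z a, by
        change mulF f (mulF z a) = mulF z a
        rw [← mulF_assoc, ← mulF_comm_of_cl hz f, mulF_assoc, a.2]⟩
      map_add' := fun a c => Subtype.ext (mulF_add z a c)
      map_smul' := fun c a => Subtype.ext (mulF_smul c z a) }
  have hne : Nontrivial V := ⟨⟨f, hff⟩, 0, fun h => hf.2.1 (congrArg Subtype.val h)⟩
  obtain ⟨c, hc⟩ := Module.End.exists_eigenvalue T
  obtain ⟨v, hv⟩ := hc.exists_hasEigenvector
  have hv0 : (v : H → F) ≠ 0 := fun h => hv.2 (Subtype.ext h)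
  have hvz : mulF z v = c • (v : H → F) := congrArg Subtype.val hv.apply_eq_smul
  have hvf : mulF f v = v := v.2
  refine ⟨c, ?_⟩
  have hcl : IsCl (z - c • f) := isCl_sub hz (isCl_smul c hf.1.1)
  rcases H50.blk_dich hf hcl with h | ⟨u, hu, h⟩
  · exact h
  · exfalso
    apply hv0
    calc (v : H → F) = mulF f v := hvf.symm
      _ = mulF (mulF (mulF u (z - c • f)) f) v := by rw [h]
      _ = mulF u (mulF (z - c • f) (mulF f v)) := by rw [mulF_assoc, mulF_assoc]
      _ = 0 := by rw [hvf, sub_mulF, smul_mulF, hvz, hvf, sub_self, mulF_zero]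

/-- the Brauer map is linear -/
theorem bY_sub_smul {F G : Type} [Field F] [Group G] (y : G) (z b : G → F) (c : F) :
    bY y (z - c • b) = bY y z - c • bY y b := by
  classical
  funext x
  rw [Pi.sub_apply, Pi.smul_apply]
  unfold bY br
  by_cases hx : x ∈ Subgroup.centralizer (Subgroup.zpowers y : Set G)
  · rw [if_pos hx, if_pos hx, if_pos hx]
    rfl
  · rw [if_neg hx, if_neg hx, if_neg hx, smul_zero, sub_zero]

/-- the Brauer map of powers -/
theorem bY_iter {F G : Type} [Field F] [Group G] [Finite G] {ℓ : ℕ} (hF : GoodF ℓ F) {y : G}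
    (hy : IsPGroup ℓ (Subgroup.zpowers y)) {a c : G → F} (ha : IsCl a) (hc : IsCl c) (n : ℕ) :
    bY y ((mulF a)^[n] c) = (mulF (bY y a))^[n] (bY y c) := by
  have h : ∀ n, IsCl ((mulF a)^[n] c) := by
    intro n
    induction n with
    | zero => exact hc
    | succ n ih =>
      rw [Function.iterate_succ_apply']
      exact isCl_mulF ha ih
  induction n with
  | zero => rfl
  | succ n ih =>
    rw [Function.iterate_succ_apply', Function.iterate_succ_apply',
      bY_mulF hF hy (cmF_of_cl ha _) (cmF_of_cl (h n) _), ih]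

/-- an idempotent `g` under the idempotent `f` such that `g - c f` is nilpotent -/
theorem idem_nil {F H : Type} [Field F] [Group H] [Finite H] {f g : H → F} (hff : mulF f f = f)
    (hgg : mulF g g = g) (hfg : mulF f g = g) (hgf : mulF g f = g) {c : F} {n : ℕ}
    (h : (mulF (g - c • f))^[n] f = 0) : g = f ∨ g = 0 := by
  have key : ∀ n : ℕ, (mulF (g - c • f))^[n] f = (1 - c) ^ n • g + (-c) ^ n • (f - g) := by
    intro n
    induction n with
    | zero =>
      rw [Function.iterate_zero, pow_zero, pow_zero, one_smul, one_smul, add_sub_cancel]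
      rfl
    | succ n ih =>
      have e1 : mulF (g - c • f) g = (1 - c) • g := by
        rw [sub_mulF, smul_mulF, hgg, hfg, sub_smul, one_smul]
      have e2 : mulF (g - c • f) (f - g) = (-c) • (f - g) := by
        rw [mulF_sub, e1, sub_mulF, smul_mulF, hgf, hff, sub_smul, one_smul, neg_smul, smul_sub]
        abel
      rw [Function.iterate_succ_apply', ih, mulF_add, mulF_smul, mulF_smul, e1, e2, smul_smul,
        smul_smul, pow_succ, pow_succ]
  rw [key n] at h
  by_cases hc : c = 0
  · right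
    have h1 := congrArg (mulF g) h
    rw [mulF_add, mulF_smul, mulF_smul, hgg, mulF_sub, hgf, hgg, sub_self, smul_zero, add_zero,
      mulF_zero, hc, sub_zero, one_pow, one_smul] at h1
    exact h1
  · left
    have h1 := congrArg (mulF (f - g)) h
    have e3 : mulF (f - g) g = 0 := by rw [sub_mulF, hfg, hgg, sub_self]
    have e4 : mulF (f - g) (f - g) = f - g := by
      rw [mulF_sub, e3, sub_mulF, hff, hgf, sub_zero]
    rw [mulF_add, mulF_smul, mulF_smul, e3, e4, smul_zero, zero_add, mulF_zero] at h1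
    have h2 : (-c) ^ n ≠ 0 := pow_ne_zero _ (neg_ne_zero.2 hc)
    rcases smul_eq_zero.1 h1 with h3 | h3
    · exact absurd h3 h2
    · exact (sub_eq_zero.1 h3).symm

/-- LOC -/
theorem loc (hbrs : BrsStmt) : LocStmt := by
  intro ℓ hℓ F _ hF G _ _ n P y₁ hcyc hcard hy ho hNC b hb hprj hb1
  have hac := hF.closed
  have hyp : IsPGroup ℓ (Subgroup.zpowers y₁) :=
    IsPGroup.of_card (n := 1) (by rw [Nat.card_zpowers, ho, pow_one])
  have hbcl : IsCl b := hb.1.1
  have hcm : CmF (NY y₁) (bY y₁ b) := by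
    have := bY_cm (y := y₁) (cmF_of_cl hbcl (⊤ : Subgroup G))
    rwa [top_inf_eq] at this
  have hsp : SpF (CY y₁) (bY y₁ b) := by
    have := bY_sp (y := y₁) (N := (⊤ : Subgroup G)) (b := b)
      (fun x hx => absurd (Subgroup.mem_top x) hx)
    rwa [top_inf_eq] at this
  have hbb : mulF (bY y₁ b) (bY y₁ b) = bY y₁ b := by
    rw [← bY_mulF hF hyp (cmF_of_cl hbcl _) (cmF_of_cl hbcl _), hb.1.2]
  have hres : mulF (fun t : CY y₁ => bY y₁ b t) (fun t : CY y₁ => bY y₁ b t) =
      fun t : CY y₁ => bY y₁ b t := by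
    rw [← H75.mulF_res (CY y₁) (bY y₁ b) hsp, hbb]
  have hcl1 : IsCl (fun t : CY y₁ => bY y₁ b t) := by
    intro x y
    exact hcm (y : G) (CY_le_NY y₁ y.2) (x : G)
  refine ⟨⟨hcl1, hres⟩, ?_, ?_⟩
  · intro h0
    apply hb1
    rw [← H56.ext_res hsp, h0, H56.ext_zero]
  · intro g hg
    set g₁ : CY y₁ → F := mulF (fun t : CY y₁ => bY y₁ b t) g with hg₁
    have hg₁cl : IsCl g₁ := isCl_mulF hcl1 hg.1
    have hfg : mulF (fun t : CY y₁ => bY y₁ b t) g₁ = g₁ := by
      rw [hg₁, ← mulF_assoc, hres]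
    have hgg : mulF g₁ g₁ = g₁ := by
      have e : mulF g₁ g₁ = mulF (mulF (fun t : CY y₁ => bY y₁ b t)
          (fun t : CY y₁ => bY y₁ b t)) (mulF g g) := by
        rw [hg₁, mulF_assoc, ← mulF_assoc g, mulF_comm_of_cl hg.1, mulF_assoc, ← mulF_assoc,
          hg.2]
      rw [e, hres, hg.2]
    -- extension by zero
    set g' : G → F := extF (CY y₁) g₁ with hg'
    have hg'sp : SpF (CY y₁) g' := H56.ext_sp _
    have hg'cm : CmF (CY y₁) g' := H56.ext_cm (fun c _ x => hg₁cl x c)
    have hext : extF (CY y₁) (fun t : CY y₁ => bY y₁ b t) = bY y₁ b := H56.ext_res hsp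
    have hfg' : mulF (bY y₁ b) g' = g' := by
      rw [← hext, hg', ← H56.ext_mul, hfg]
    have hgg' : mulF g' g' = g' := by
      rw [hg', ← H56.ext_mul, hgg]
    obtain ⟨z, -, hzcm, hbz, hbyz⟩ := hbrs ℓ F hF G n (⊤ : Subgroup G) P y₁ le_top hcyc hcard hy ho b
      (fun x hx => absurd (Subgroup.mem_top x) hx) (cmF_of_cl hbcl _) hb.1.2
      (by rw [top_inf_eq]; exact hprj) g' (by rw [top_inf_eq]; exact hg'sp)
      (by rw [top_inf_eq]; exact hg'cm.mono hNC) hfg'
    have hzcl : IsCl z := fun x y => hzcm y (Subgroup.mem_top y) x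
    obtain ⟨c, m, hm⟩ := dec hb hzcl
    have h1 := congrArg (bY y₁) hm
    rw [bY_iter hF hyp (isCl_sub hzcl (isCl_smul c hbcl)) hbcl, bY_sub_smul, hbyz] at h1
    have h0 : bY y₁ (0 : G → F) = 0 := by
      funext x
      unfold bY br
      split_ifs <;> rfl
    rw [h0] at h1
    have hgf' : mulF g' (bY y₁ b) = g' := by
      rw [cm_comm hg'cm hsp, hfg']
    rcases idem_nil hbb hgg' hfg' hgf' h1 with h2 | h2
    · left
      apply H56.ext_inj
      rw [← hg', h2, hext]
    · right
      apply H56.ext_inj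
      rw [← hg', h2, H56.ext_zero]

end Pool.Agent.PP.CD2.H6
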