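import Pool.Agent.Helper66_D2.Stmts

/-!
# Squad PP, part D2, module NLK: linear algebra of a nilpotent endomorphism
-/

open scoped BigOperators

noncomputable section

namespace Pool.Agent.PP.CD2.H6

/-- NLK -/
theorem nlk : NlkStmt := by
  intro F _ E _ _ W q s t u hq hs1 hsq ht hts hker
  set A : Submodule F E := Submodule.span F (Set.range fun k : ℕ => (W ^ k) u) with hA
  have hAk : ∀ k, (W ^ k) u ∈ A := fun k => Submodule.subset_span ⟨k, rfl⟩
  have hmono : ∀ i j, i ≤ j → LinearMap.range (W ^ j) ≤ LinearMap.range (W ^ i) := by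
    rintro i j hij _ ⟨v, rfl⟩
    refine ⟨(W ^ (j - i)) v, ?_⟩
    have e : W ^ j = W ^ i * W ^ (j - i) := by
      rw [← pow_add]
      congr 1
      omega
    rw [e, Module.End.mul_apply]
  have key : ∀ j, 1 ≤ j → j + 1 ≤ q → ∀ v, (W ^ j) v = 0 →
      v ∈ A ⊔ LinearMap.range (W ^ (q - j)) := by
    intro j hj
    induction j, hj using Nat.le_induction with
    | base =>
      intro hq1 v hv
      rw [pow_one] at hv
      obtain ⟨α, v', rfl⟩ := hker v hv
      refine Submodule.add_mem_sup (A.smul_mem α ?_) ⟨v', rfl⟩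
      rw [ht]
      exact hAk _
    | succ j hj ih =>
      intro hq1 v hv
      rw [pow_succ', Module.End.mul_apply] at hv
      obtain ⟨α, v₁, h1⟩ := hker _ hv
      have hm : LinearMap.range (W ^ (q - j)) ≤ LinearMap.range (W ^ (q - (j + 1))) :=
        hmono _ _ (by omega)
      have hv1 : (W ^ j) (v - (W ^ (q - (j + 1))) v₁) = α • t := by
        have e : W ^ j * W ^ (q - (j + 1)) = W ^ (q - 1) := by
          rw [← pow_add]
          congr 1
          omega
        rw [map_sub, ← Module.End.mul_apply, e, h1, add_sub_cancel_right]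
      have hsub : v = (v - (W ^ (q - (j + 1))) v₁) + (W ^ (q - (j + 1))) v₁ := by abel
      have hrg : (W ^ (q - (j + 1))) v₁ ∈ A ⊔ LinearMap.range (W ^ (q - (j + 1))) :=
        (le_sup_right : LinearMap.range (W ^ (q - (j + 1))) ≤ _) ⟨v₁, rfl⟩
      rw [hsub]
      refine Submodule.add_mem _ ?_ hrg
      by_cases hα : α = 0
      · rw [hα, zero_smul] at hv1
        exact (sup_le_sup_left hm A) (ih (by omega) _ hv1)
      · have hjs : j < s := by
          by_contra hcon
          apply hts
          refine hmono s j (by omega) ?_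
          refine ⟨α⁻¹ • (v - (W ^ (q - (j + 1))) v₁), ?_⟩
          rw [map_smul, hv1, smul_smul, inv_mul_cancel₀ hα, one_smul]
        have h2 : (W ^ j) (v - (W ^ (q - (j + 1))) v₁ - α • (W ^ (s - 1 - j)) u) = 0 := by
          have e : W ^ j * W ^ (s - 1 - j) = W ^ (s - 1) := by
            rw [← pow_add]
            congr 1
            omega
          rw [map_sub, hv1, map_smul, ← Module.End.mul_apply, e, ← ht, sub_self]
        have h3 := (sup_le_sup_left hm A) (ih (by omega) _ h2)
        have h4 : α • (W ^ (s - 1 - j)) u ∈ A ⊔ LinearMap.range (W ^ (q - (j + 1))) :=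
          (le_sup_left : A ≤ _) (A.smul_mem α (hAk _))
        have h5 := Submodule.add_mem _ h3 h4
        rwa [sub_add_cancel] at h5
  intro v hv
  have h1 := key (q - 1) (by omega) (by omega) v hv
  have e : q - (q - 1) = 1 := by omega
  rw [e, pow_one, Submodule.mem_sup] at h1
  obtain ⟨a, ha, _, ⟨v', rfl⟩, rfl⟩ := h1
  have h2 : ∀ a ∈ A, ∃ (α : F) (v' : E), a = α • u + W v' := by
    intro a ha
    induction ha using Submodule.span_induction with
    | mem x hx =>
      obtain ⟨k, rfl⟩ := hx
      cases k with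
      | zero => exact ⟨1, 0, by simp⟩
      | succ k => exact ⟨0, (W ^ k) u, by simp [pow_succ']⟩
    | zero => exact ⟨0, 0, by simp⟩
    | add x y _ _ hx hy =>
      obtain ⟨α, v₁, rfl⟩ := hx
      obtain ⟨β, v₂, rfl⟩ := hy
      exact ⟨α + β, v₁ + v₂, by rw [add_smul, map_add]; abel⟩
    | smul r x _ hx =>
      obtain ⟨α, v₁, rfl⟩ := hx
      exact ⟨r * α, r • v₁, by rw [smul_add, smul_smul, map_smul]⟩
  obtain ⟨α, v₁, rfl⟩ := h2 a ha
  exact ⟨α, v₁ + v', by rw [map_add, add_assoc]⟩

end Pool.Agent.PP.CD2.H6
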